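import Pool.Agent.H61.CMC.TargetsE1

/-!
# Row E1_GQU of the board `cm4_modules`: the change of the imaginary part in the Gamma factor
-/

set_option autoImplicit false

open MeasureTheory Set Filter NumberField NumberField.InfinitePlace NumberField.Units
  NumberField.Units.dirichletUnitTheorem Pool.Agent.H65.CM4 Pool.Agent.H65.CMC Pool.Agent.H25.HK
  Pool.Agent.H61.CM4 Pool.Agent.H61.CMC
open scoped Real

namespace Pool.Agent.H21.CMC1

theorem half_sq (y : ℝ) :
    ‖Complex.Gamma (1 / 2 + y * Complex.I)‖ ^ 2 = π / Real.cosh (π * y) := by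
  have hconj : (starRingEnd ℂ) (Complex.Gamma (1 / 2 + y * Complex.I)) =
      Complex.Gamma (1 - (1 / 2 + y * Complex.I)) := by
    rw [← Complex.Gamma_conj]
    congr 1
    rw [map_add, map_mul, Complex.conj_I, Complex.conj_ofReal]
    have : (starRingEnd ℂ) (1 / 2 : ℂ) = 1 / 2 := by
      rw [map_div₀, map_one, map_ofNat]
    rw [this]; ring
  have h2 : ((‖Complex.Gamma (1 / 2 + y * Complex.I)‖ ^ 2 : ℝ) : ℂ) =
      ((π / Real.cosh (π * y) : ℝ) : ℂ) := by
    rw [← Complex.normSq_eq_norm_sq, ← Complex.mul_conj, hconj, Complex.Gamma_mul_Gamma_one_sub]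
    have e : (π : ℂ) * (1 / 2 + y * Complex.I) = ((π * y : ℝ) : ℂ) * Complex.I + π / 2 := by
      push_cast; ring
    rw [e, Complex.sin_add_pi_div_two, Complex.cos_mul_I]
    push_cast
    rfl
  exact_mod_cast h2

theorem cosh_cmp (t τ : ℝ) : Real.cosh (π * t) ≤ Real.exp (π * |τ - t|) * Real.cosh (π * τ) := by
  have hpi := Real.pi_pos
  rw [Real.cosh_eq, Real.cosh_eq]
  have h1 : Real.exp (π * t) ≤ Real.exp (π * |τ - t|) * Real.exp (π * τ) := by
    rw [← Real.exp_add]
    apply Real.exp_le_exp.2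
    have := neg_abs_le (τ - t)
    nlinarith
  have h2 : Real.exp (-(π * t)) ≤ Real.exp (π * |τ - t|) * Real.exp (-(π * τ)) := by
    rw [← Real.exp_add]
    apply Real.exp_le_exp.2
    have := le_abs_self (τ - t)
    nlinarith
  linarith

theorem half_cmp (t τ : ℝ) : ‖Complex.Gamma (1 / 2 + τ * Complex.I)‖ ≤
    Real.exp (π * |τ - t| / 2) * ‖Complex.Gamma (1 / 2 + t * Complex.I)‖ := by
  have h1 := half_sq t
  have h2 := half_sq τ
  have hc1 := Real.cosh_pos (π * t)
  have hc2 := Real.cosh_pos (π * τ)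
  have h3 : ‖Complex.Gamma (1 / 2 + τ * Complex.I)‖ ^ 2 ≤
      (Real.exp (π * |τ - t| / 2) * ‖Complex.Gamma (1 / 2 + t * Complex.I)‖) ^ 2 := by
    rw [mul_pow, h1, h2, ← Real.exp_nat_mul]
    have e : ((2 : ℕ) : ℝ) * (π * |τ - t| / 2) = π * |τ - t| := by push_cast; ring
    rw [e, div_le_iff₀ hc2]
    have h4 := cosh_cmp t τ
    have h5 : π * Real.cosh (π * t) ≤
        π * (Real.exp (π * |τ - t|) * Real.cosh (π * τ)) :=
      mul_le_mul_of_nonneg_left h4 Real.pi_pos.le
    have h6 : Real.exp (π * |τ - t|) * (π / Real.cosh (π * t)) * Real.cosh (π * τ) =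
        π * (Real.exp (π * |τ - t|) * Real.cosh (π * τ)) / Real.cosh (π * t) := by
      field_simp
    rw [h6, le_div_iff₀ hc1]
    exact h5
  exact le_of_sq_le_sq h3 (by positivity)

theorem step (M : ℕ) (t τ : ℝ) (h : |τ| ≤ |t|) :
    ‖Complex.Gamma (1 / 2 + M + τ * Complex.I)‖ ≤
      Real.exp (π * |τ - t| / 2) * ‖Complex.Gamma (1 / 2 + M + t * Complex.I)‖ := by
  have hrec : ∀ (M : ℕ) (s : ℝ), Complex.Gamma (1 / 2 + (M + 1 : ℕ) + s * Complex.I) =
      (1 / 2 + M + s * Complex.I) * Complex.Gamma (1 / 2 + M + s * Complex.I) := by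
    intro M s
    have h1 : (1 / 2 + M + s * Complex.I : ℂ) ≠ 0 := by
      intro h2
      have h3 := congrArg Complex.re h2
      have h4 : (0 : ℝ) ≤ M := Nat.cast_nonneg M
      simp at h3
      linarith
    rw [← Complex.Gamma_add_one _ h1]
    congr 1
    push_cast
    ring
  induction M with
  | zero =>
    have h1 := half_cmp t τ
    simpa using h1
  | succ M ih =>
    rw [hrec, hrec, norm_mul, norm_mul]
    have h1 : ‖(1 / 2 + M + τ * Complex.I : ℂ)‖ ≤ ‖(1 / 2 + M + t * Complex.I : ℂ)‖ := by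
      rw [Complex.norm_def, Complex.norm_def]
      apply Real.sqrt_le_sqrt
      rw [Complex.normSq_apply, Complex.normSq_apply]
      have h2 : τ ^ 2 ≤ t ^ 2 := sq_le_sq.2 h
      simp
      nlinarith
    calc ‖(1 / 2 + M + τ * Complex.I : ℂ)‖ * ‖Complex.Gamma (1 / 2 + M + τ * Complex.I)‖
        ≤ ‖(1 / 2 + M + t * Complex.I : ℂ)‖ * (Real.exp (π * |τ - t| / 2) *
          ‖Complex.Gamma (1 / 2 + M + t * Complex.I)‖) :=
          mul_le_mul h1 ih (norm_nonneg _) (norm_nonneg _)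
      _ = _ := by ring

theorem pf_GQU (hGMO : T_GMO) : T_GQU := by
  intro M t τ
  rcases le_total |t| |τ| with h | h
  · have h1 := hGMO.1 (1 / 2 + M) t τ (by positivity) h
    have e : ∀ s : ℝ, (((1 / 2 + M : ℝ) : ℂ) + s * Complex.I) = 1 / 2 + M + s * Complex.I := by
      intro s
      push_cast
      ring
    rw [e, e] at h1
    have h2 : 1 ≤ Real.exp (π * |τ - t| / 2) := by
      apply Real.one_le_exp
      have := Real.pi_pos
      positivity
    calc ‖Complex.Gamma (1 / 2 + M + τ * Complex.I)‖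
        ≤ 1 * ‖Complex.Gamma (1 / 2 + M + t * Complex.I)‖ := by rw [one_mul]; exact h1
      _ ≤ _ := mul_le_mul_of_nonneg_right h2 (norm_nonneg _)
  · exact step M t τ h

end Pool.Agent.H21.CMC1
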